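import Mathlib

set_option autoImplicit false

namespace Pool.Agent.Results.MP_0eb722_an.Exact

open Complex Set Metric
open scoped InnerProductSpace Real

/-- Complex `n`-space with the Euclidean norm. -/
abbrev E (n : ℕ) := EuclideanSpace ℂ (Fin n)

variable {n : ℕ} {θ : ℝ} {V : Type} [NormedAddCommGroup V] [InnerProductSpace ℂ V]

/-- The closed sector of half-angle `θ`. -/
def Sect (θ : ℝ) (z : ℂ) : Prop := z = 0 ∨ |arg z| ≤ θ

/-- The numerical range of `G` lies in the sector. -/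
def InG (θ : ℝ) (G : V →L[ℂ] V) : Prop := ∀ x, ‖x‖ = 1 → Sect θ ⟪x, G x⟫_ℂ

/-- The phase-sensitive structured singular value. -/
noncomputable def mu (θ : ℝ) (M : V →L[ℂ] V) : ℝ :=
  1 / sInf {s | ∃ G : V →L[ℂ] V, InG θ G ∧ (∃ x ≠ 0, x + G (M x) = 0) ∧ s = ‖G‖}

/-- The Hermitian form of `r (M^* M - γ^2) - ((1 + jβ) M + ((1 + jβ) M)^*)` is negative definite. -/
def LMI (M : V →L[ℂ] V) (r γ β : ℝ) : Prop :=
  ∀ x ≠ 0, r * (‖M x‖ ^ 2 - γ ^ 2 * ‖x‖ ^ 2) - 2 * ((1 + I * β) * ⟪x, M x⟫_ℂ).re < 0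

/-- The LMI upper bound. -/
noncomputable def muHat (θ : ℝ) (M : V →L[ℂ] V) : ℝ :=
  sInf {γ | 0 < γ ∧ ∃ r > (0 : ℝ), ∃ β : ℝ, (θ = 0 ∨ |β| ≤ Real.cot θ) ∧ LMI M r γ β}

/-- Largest gain over unit vectors `x` with `-x^* M x` in the sector. -/
noncomputable def A (θ : ℝ) (M : V →L[ℂ] V) : ℝ :=
  sSup {s | ∃ x, ‖x‖ = 1 ∧ Sect θ (-⟪x, M x⟫_ℂ) ∧ s = ‖M x‖}

/-- Largest gain over unit vectors `x` making an angle at most `θ` with `-M x`. -/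
noncomputable def B (θ : ℝ) (M : V →L[ℂ] V) : ℝ :=
  sSup {s | ∃ x, ‖x‖ = 1 ∧ Real.cos θ * ‖M x‖ ≤ -(⟪x, M x⟫_ℂ).re ∧ s = ‖M x‖}

theorem sect (h : θ ∈ Icc 0 (π / 2)) {z : ℂ} : Sect θ z ↔ Real.cos θ * ‖z‖ ≤ z.re := by
  by_cases z0 : z = 0
  · simp [Sect, z0]
  have p := Real.pi_pos
  rw [Sect, or_iff_right z0, ← le_div_iff₀ (norm_pos_iff.mpr z0), ← cos_arg z0, ← Real.cos_abs z.arg,
    Real.strictAntiOn_cos.le_iff_ge ⟨h.1, by linarith [h.2]⟩ ⟨abs_nonneg _, abs_arg_le_pi z⟩]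

theorem cs (h : θ ∈ Icc 0 (π / 2)) : 0 ≤ Real.cos θ ∧ 0 ≤ Real.sin θ :=
  ⟨Real.cos_nonneg_of_neg_pi_div_two_le_of_le (by linarith [h.1, Real.pi_pos]) h.2,
    Real.sin_nonneg_of_nonneg_of_le_pi h.1 (by linarith [h.2, Real.pi_pos])⟩

theorem lin (h : θ ∈ Icc 0 (π / 2)) {z : ℂ} (a : Real.cos θ * ‖z‖ ≤ z.re) :
    0 ≤ z.re ∧ Real.cos θ * |z.im| ≤ Real.sin θ * z.re := by
  have c := cs h
  have r := (mul_nonneg c.1 (norm_nonneg z)).trans a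
  refine ⟨r, abs_le_of_sq_le_sq' ?_ (mul_nonneg c.2 r) |>.2⟩
  have := pow_le_pow_left₀ (mul_nonneg c.1 (norm_nonneg z)) a 2
  rw [mul_pow, Complex.sq_norm, normSq_apply] at this
  rw [mul_pow, sq_abs, mul_pow, Real.sin_sq]
  linarith

theorem nz {x : E n} (h : x ≠ 0) : ∃ u : E n, ‖u‖ = 1 ∧ ∃ c : ℝ, 0 < c ∧ x = (c : ℂ) • u :=
  ⟨(‖x‖⁻¹ : ℂ) • x, by simp [norm_smul, h], ‖x‖, norm_pos_iff.mpr h, by simp [smul_smul, h]⟩

theorem ing (h : θ ∈ Icc 0 (π / 2)) {G : E n →L[ℂ] E n} :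
    InG θ G ↔ ∀ x, Real.cos θ * ‖⟪x, G x⟫_ℂ‖ ≤ (⟪x, G x⟫_ℂ).re := by
  refine ⟨fun a x => ?_, fun a x _ => (sect h).mpr (a x)⟩
  by_cases x0 : x = 0
  · simp [x0]
  obtain ⟨u, u1, c, c0, rfl⟩ := nz x0
  have := (sect h).mp (a u u1)
  simp only [map_smul, inner_smul_left, inner_smul_right, conj_ofReal, norm_mul, re_ofReal_mul,
    norm_real, Real.norm_of_nonneg c0.le]
  nlinarith [mul_pos c0 c0]

theorem attain (h : θ ∈ Icc 0 (π / 2)) {G : E n →L[ℂ] E n} (a : InG θ G) (g : ‖G‖ ≤ 1) {v : E n}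
    (v1 : ‖v‖ = 1) (w1 : ‖G v‖ = 1) : Real.cos θ ≤ (⟪v, G v⟫_ℂ).re := by
  have e : G.adjoint (G v) = v := by
    have b : ‖G.adjoint (G v)‖ ≤ 1 := (G.adjoint.le_opNorm _).trans (by simp [w1, g])
    have c := norm_sub_sq (𝕜 := ℂ) (G.adjoint (G v)) v
    rw [G.adjoint_inner_left, inner_self_eq_norm_sq, v1, w1] at c
    rw [← sub_eq_zero, ← norm_eq_zero, ← sq_eq_zero_iff]
    nlinarith [norm_nonneg (G.adjoint (G v)), sq_nonneg ‖G.adjoint (G v) - v‖]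
  have z : ∀ t : ℂ, t.re ^ 2 + t.im ^ 2 = 1 → ⟪v - t • G v, G (v - t • G v)⟫_ℂ =
      2 * ⟪v, G v⟫_ℂ - t * ⟪v, G (G v)⟫_ℂ - (starRingEnd ℂ) t := fun t c => by
    have : (starRingEnd ℂ) t * t = 1 := by
      rw [mul_comm, mul_conj, normSq_apply, ← sq, ← sq, c, ofReal_one]
    simp only [map_sub, map_smul, inner_sub_left, inner_sub_right, inner_smul_left,
      inner_smul_right]
    rw [← G.adjoint_inner_left (G v) (G v), e, inner_self_eq_norm_sq_to_K, w1]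
    simp only [coe_algebraMap, ofReal_one]
    linear_combination ⟪v, G v⟫_ℂ * this
  have l := fun t c => z t c ▸ lin h ((ing h).mp a (v - t • G v))
  generalize ⟪v, G v⟫_ℂ = p at *
  generalize ⟪v, G (G v)⟫_ℂ = m at *
  rcases h.1.eq_or_lt with r | r
  · have l1 := (l 1 (by simp)).1
    have l2 := (l I (by simp)).2
    simp [← r] at l1 l2 ⊢
    have l3 := (l (-I) (by simp)).2
    simp [← r] at l3
    linarith
  have s := Real.sin_pos_of_pos_of_lt_pi r (by linarith [h.2, Real.pi_pos])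
  have l1 := (mul_le_mul_of_nonneg_left (le_abs_self _) (cs h).1).trans
    (l ⟨Real.cos θ, Real.sin θ⟩ (Real.cos_sq_add_sin_sq θ)).2
  have l2 := (mul_le_mul_of_nonneg_left (neg_le_abs _) (cs h).1).trans
    (l ⟨Real.cos θ, -Real.sin θ⟩ (by simp)).2
  simp at l1 l2
  nlinarith

theorem build (h : θ ∈ Icc 0 (π / 2)) {v w : E n} (v1 : ‖v‖ = 1) (w1 : ‖w‖ = 1)
    (a : Real.cos θ ≤ (⟪v, w⟫_ℂ).re) : ∃ G : E n →L[ℂ] E n, InG θ G ∧ ‖G‖ ≤ 1 ∧ G v = w := by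
  set r := (⟪v, w⟫_ℂ).re
  let y := w - (r : ℂ) • v
  have vv : ⟪v, v⟫_ℂ = 1 := by simp [v1]
  have y1 : r ^ 2 + ‖y‖ ^ 2 = 1 := by
    rw [norm_sub_rev, norm_sub_sq (𝕜 := ℂ), inner_smul_left, norm_smul]
    simp [v1, w1, r]
    ring
  let H := (ℂ ∙ ((‖y‖ : ℂ) • v - I • y))ᗮ.reflection
  have H1 : H ((‖y‖ : ℂ) • v) = I • y := by
    have b : H _ = _ := Submodule.reflection_orthogonalComplement_singleton_eq_neg _
    have c : H ((‖y‖ : ℂ) • v + I • y) = _ := Submodule.reflection_mem_subspace_eq_self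
      (Submodule.mem_orthogonal_singleton_iff_inner_right.mpr (by
        have : ⟪y, v⟫_ℂ = -⟪v, y⟫_ℂ := by
          rw [← inner_conj_symm, inner_sub_right, inner_smul_right, vv]
          apply Complex.ext <;> simp [r, -inner_conj_symm]
        simp only [inner_sub_left, inner_add_right, inner_smul_left, inner_smul_right, vv, this,
          inner_self_eq_norm_sq_to_K y, conj_ofReal, conj_I, coe_algebraMap]
        linear_combination (‖y‖ : ℂ) ^ 2 * I_sq))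
    rw [map_sub] at b
    rw [map_add] at c
    linear_combination (norm := module) (1 / 2 : ℂ) • b + (1 / 2 : ℂ) • c
  have H2 : ∀ u, (⟪u, H u⟫_ℂ).im = 0 := fun u => conj_eq_iff_im.mp (by
    rw [inner_conj_symm, ← H.inner_map_map, Submodule.reflection_reflection])
  let G : E n →L[ℂ] E n := (r : ℂ) • 1 - (I * ‖y‖) • H.toContinuousLinearEquiv.toContinuousLinearMap
  have e : ∀ u, G u = (r : ℂ) • u - (I * ‖y‖) • H u := fun _ => rfl
  have g : ∀ u, ‖G u‖ = ‖u‖ := fun u => by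
    rw [← sq_eq_sq₀ (norm_nonneg _) (norm_nonneg _), e, norm_sub_sq (𝕜 := ℂ), inner_smul_left,
      inner_smul_right, norm_smul, norm_smul, H.norm_map]
    simp [H2, mul_pow]
    linear_combination ‖u‖ ^ 2 * y1
  refine ⟨G, fun u u1 => (sect h).mpr ?_, G.opNorm_le_bound zero_le_one fun u => by simp [g], ?_⟩
  · refine (mul_le_of_le_one_right (cs h).1 ((norm_inner_le_norm _ _).trans_eq (by
      simp [g, u1]))).trans (a.trans_eq ?_)
    simp [e, u1, H2]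
  · rw [e, mul_smul, ← map_smul, H1, smul_smul, I_mul_I]
    simp [y]

theorem pair (N : E n →L[ℂ] E n) (x y : E n) (h : ⟪x, N x⟫_ℂ + ⟪y, N y⟫_ℂ = 0) :
    ∃ u v : E n, ⟪u, N u⟫_ℂ = 0 ∧ ∀ T : E n →L[ℂ] E n,
      ⟪u, T u⟫_ℂ + ⟪v, T v⟫_ℂ = ⟪x, T x⟫_ℂ + ⟪y, T y⟫_ℂ := by
  obtain ⟨e, e1, e2⟩ := Complex.exists_norm_eq_mul_self ⟪x, N x⟫_ℂ
  obtain ⟨t, t1, t2⟩ := Complex.exists_norm_eq_mul_self
    (e * ⟪x, N y⟫_ℂ - (starRingEnd ℂ) (e * ⟪y, N x⟫_ℂ))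
  have t3 : (starRingEnd ℂ) t * t = 1 := by
    rw [mul_comm, mul_conj, normSq_eq_norm_sq, t1]; simp
  let k := e * (t * ⟪x, N y⟫_ℂ + (starRingEnd ℂ) t * ⟪y, N x⟫_ℂ)
  have k0 : (k.re : ℂ) = k := conj_eq_iff_re.mp (conj_eq_iff_im.mpr (by
    have := congrArg im t2
    simp [k, -inner_conj_symm] at this ⊢
    linarith))
  obtain ⟨φ, -, f⟩ := intermediate_value_uIcc (a := 0) (b := π / 2) (f := fun φ =>
    (Real.cos φ ^ 2 - Real.sin φ ^ 2) * ‖⟪x, N x⟫_ℂ‖ + Real.cos φ * Real.sin φ * k.re)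
    (by fun_prop) (show 0 ∈ _ by simp)
  have c := congrArg ofReal (Real.cos_sq_add_sin_sq φ)
  have f := congrArg ofReal f
  simp only [ofReal_add, ofReal_mul, ofReal_pow, ofReal_sub, ofReal_one, ofReal_zero, k0, e2,
    k] at c f
  refine ⟨(Real.cos φ : ℂ) • x + (Real.sin φ * t : ℂ) • y,
    (-Real.sin φ : ℂ) • x + (Real.cos φ * t : ℂ) • y,
    (mul_eq_zero_iff_left (norm_ne_zero_iff.mp (e1 ▸ one_ne_zero : ‖e‖ ≠ 0))).mp ?_, fun T => ?_⟩ <;>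
  simp only [map_add, map_smul, inner_add_left, inner_add_right, inner_smul_left,
    inner_smul_right, map_mul, conj_ofReal, map_neg]
  · linear_combination f + e * (Real.sin φ : ℂ) ^ 2 * (h + ⟪y, N y⟫_ℂ * t3)
  · linear_combination (⟪x, T x⟫_ℂ + ⟪y, T y⟫_ℂ * (starRingEnd ℂ) t * t) * c + ⟪y, T y⟫_ℂ * t3

theorem ray {v a b : ℝ} (h : ∀ t ≥ 0, v < a + t * b) : 0 ≤ b := by
  by_contra c
  have := h ((a - v) / -b) (div_nonneg (by linarith [h 0 le_rfl]) (by linarith))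
  rw [div_neg, neg_mul, div_mul_cancel₀ _ (not_le.mp c).ne] at this
  linarith

theorem form (β : ℝ) (z : ℂ) : ((1 + I * β) * z).re = z.re - β * z.im := by simp

theorem leA (M : E n →L[ℂ] E n) {x : E n} (x1 : ‖x‖ = 1) (h : Sect θ (-⟪x, M x⟫_ℂ)) :
    ‖M x‖ ≤ A θ M :=
  le_csSup ⟨‖M‖, fun _ ⟨_, a, _, e⟩ => e ▸ M.unit_le_opNorm _ a.le⟩ ⟨x, x1, h, rfl⟩

theorem A0 (M : E n →L[ℂ] E n) : 0 ≤ A θ M :=
  Real.sSup_nonneg fun _ ⟨_, _, _, e⟩ => e ▸ norm_nonneg _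

theorem feas (h : θ ∈ Icc 0 (π / 2)) (M : E n →L[ℂ] E n) {γ : ℝ} (g : A θ M < γ) :
    ∃ r > (0 : ℝ), ∃ β : ℝ, (θ = 0 ∨ |β| ≤ Real.cot θ) ∧ LMI M r γ β := by
  let K := (fun p : E n × ℝ => (p.2, -⟪p.1, M p.1⟫_ℂ)) ''
    (sphere 0 1 ×ˢ Icc 0 (‖M‖ ^ 2) ∩ {p | p.2 ≤ ‖M p.1‖ ^ 2})
  have mk : ∀ x q, ‖x‖ = 1 → 0 ≤ q → q ≤ ‖M x‖ ^ 2 → (q, -⟪x, M x⟫_ℂ) ∈ K := fun x q a b c =>
    ⟨(x, q), ⟨⟨by simpa using a, b, c.trans (pow_le_pow_left₀ (norm_nonneg _)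
      (M.unit_le_opNorm _ a.le) 2)⟩, c⟩, rfl⟩
  have kc : Convex ℝ K := by
    rintro _ ⟨⟨x, p⟩, ⟨⟨x1, p0, -⟩, p1⟩, rfl⟩ _ ⟨⟨y, q⟩, ⟨⟨y1, q0, -⟩, q1⟩, rfl⟩ a b a0 b0 e
    simp only [mem_sphere_zero_iff_norm, mem_ofPred_eq] at x1 y1 p1 q1 p0 q0
    have s : ∀ (c : ℝ) (x : E n) (T : E n →L[ℂ] E n), 0 ≤ c →
        ⟪(√c : ℂ) • x, T ((√c : ℂ) • x)⟫_ℂ = c * ⟪x, T x⟫_ℂ := fun c x T c0 => by
      rw [map_smul, inner_smul_left, inner_smul_right, conj_ofReal, ← mul_assoc, ← ofReal_mul,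
        Real.mul_self_sqrt c0]
    have e' : (a : ℂ) + b = 1 := by exact_mod_cast e
    let N := M - (a * ⟪x, M x⟫_ℂ + b * ⟪y, M y⟫_ℂ) • 1
    have z : ⟪(√a : ℂ) • x, N ((√a : ℂ) • x)⟫_ℂ + ⟪(√b : ℂ) • y, N ((√b : ℂ) • y)⟫_ℂ = 0 := by
      rw [s _ _ _ a0, s _ _ _ b0]
      simp [N, x1, y1]
      linear_combination -(a * ⟪x, M x⟫_ℂ + b * ⟪y, M y⟫_ℂ) * e'
    obtain ⟨u, v, u0, f⟩ := pair N _ _ z
    have v0 := (f N).trans z
    rw [u0, zero_add] at v0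
    have f1 := congrArg re (f 1)
    have f2 := congrArg re (f (M.adjoint * M))
    rw [s _ _ _ a0, s _ _ _ b0] at f1 f2
    simp [x1, y1, ContinuousLinearMap.adjoint_inner_right, ← ofReal_pow] at f1 f2
    obtain ⟨w, w0, w1, w2⟩ : ∃ w ≠ 0, ⟪w, N w⟫_ℂ = 0 ∧ (a * p + b * q) * ‖w‖ ^ 2 ≤ ‖M w‖ ^ 2 := by
      have := add_le_add (mul_le_mul_of_nonneg_left p1 a0) (mul_le_mul_of_nonneg_left q1 b0)
      rw [e] at f1
      by_cases u1 : u = 0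
      · simp only [u1, norm_zero, map_zero] at f1 f2
        exact ⟨v, fun c => by simp [c] at f1, v0, by nlinarith⟩
      by_cases v1 : v = 0
      · simp only [v1, norm_zero, map_zero] at f1 f2
        exact ⟨u, u1, u0, by nlinarith⟩
      by_contra! c
      have := add_lt_add (c u u1 u0) (c v v1 v0)
      rw [← mul_add, f1] at this
      linarith
    obtain ⟨w, w3, c, c0, rfl⟩ := nz w0
    simp only [map_smul, inner_smul_left, inner_smul_right, mul_eq_zero, map_eq_zero,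
      ofReal_eq_zero, c0.ne', false_or, norm_smul, w3, norm_real, Real.norm_of_nonneg c0.le] at w1 w2
    convert mk w (a * p + b * q) w3 (by positivity) (by nlinarith [mul_pos c0 c0]) using 1
    simp [N, w3, inner_sub_right, inner_smul_right] at w1
    ext
    · simp
    · simp only [Prod.snd_add, Prod.smul_snd, real_smul]
      linear_combination w1
  obtain ⟨f, u, v, f1, uv, f2⟩ := geometric_hahn_banach_compact_closed kc
    ((((isCompact_sphere 0 1).prod isCompact_Icc).inter_right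
      (isClosed_le (by fun_prop) (by fun_prop))).image (by fun_prop))
    (t := {p : ℝ × ℂ | γ ^ 2 ≤ p.1 ∧ Real.cos θ * ‖p.2‖ ≤ p.2.re})
    (fun p c q d a b a0 b0 e => ⟨by simp; nlinarith [c.1, d.1], by
      have := mul_le_mul_of_nonneg_left (norm_add_le (a • p.2) (b • q.2)) (cs h).1
      rw [norm_smul, norm_smul, Real.norm_of_nonneg a0, Real.norm_of_nonneg b0] at this
      refine this.trans ?_
      simp
      nlinarith [c.2, d.2]⟩)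
    (.and (isClosed_le (by fun_prop) (by fun_prop)) (isClosed_le (by fun_prop) (by fun_prop)))
    (disjoint_left.mpr fun _ ⟨⟨x, q⟩, ⟨⟨a, _⟩, b⟩, e⟩ c => by
      subst e
      exact (pow_lt_pow_left₀ ((leA M (by simpa using a) ((sect h).mpr c.2)).trans_lt g)
        (norm_nonneg _) two_ne_zero).not_ge (c.1.trans b))
  have e : ∀ q z, f (q, z) = q * f (1, 0) + z.re * f (0, 1) + z.im * f (0, I) := fun q z => by
    simp only [← smul_eq_mul, ← map_smul, ← map_add]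
    congr 1
    ext <;> simp
  have r0 : 0 ≤ f (1, 0) := ray fun t t0 => (f2 (γ ^ 2 + t, 0) ⟨by simpa, by simp⟩).trans_eq
    (c := γ ^ 2 * f (1, 0) + t * _) (by rw [e]; simp; ring)
  have c0 : ∀ z : ℂ, Real.cos θ * ‖z‖ ≤ z.re → 0 ≤ z.re * f (0, 1) + z.im * f (0, I) := fun z a =>
    ray fun t t0 => (f2 (γ ^ 2, t * z) ⟨le_rfl, by
      simp [abs_of_nonneg t0]; nlinarith⟩).trans_eq (c := γ ^ 2 * f (1, 0) + t * _)
      (by rw [e]; simp; ring)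
  have c1 := c0 1 (by simp [Real.cos_le_one])
  have c2 := c0 ⟨Real.cos θ, Real.sin θ⟩ (by simp [Complex.norm_eq_sqrt_sq_add_sq])
  have c3 := c0 ⟨Real.cos θ, -Real.sin θ⟩ (by simp [Complex.norm_eq_sqrt_sq_add_sq])
  have v1 := f2 (γ ^ 2, 0) ⟨le_rfl, by simp⟩
  rw [e] at v1
  simp only [one_re, one_im, zero_re, zero_im, one_mul, zero_mul, add_zero] at c1 c2 c3 v1
  obtain ⟨ε, ε0, ε1⟩ := exists_pos_mul_lt (sub_pos.mpr uv) (‖M‖ ^ 2 + ‖M‖)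
  have d : 0 < f (0, 1) + ε := by positivity
  refine ⟨2 * (f (1, 0) + ε) / (f (0, 1) + ε), by positivity, -f (0, I) / (f (0, 1) + ε),
    h.1.eq_or_lt.imp Eq.symm fun t => ?_,
    fun x x0 => ?_⟩
  · have s := Real.sin_pos_of_pos_of_lt_pi t (by linarith [h.2, Real.pi_pos])
    rw [abs_div, abs_of_pos d, Real.cot_eq_cos_div_sin, div_le_div_iff₀ d s, ← abs_of_pos s,
      ← abs_mul, abs_le]
    constructor <;> nlinarith [mul_nonneg (cs h).1 ε0.le]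
  obtain ⟨x, x1, c, c0, rfl⟩ := nz x0
  simp only [form, map_smul, inner_smul_left, inner_smul_right, conj_ofReal, re_ofReal_mul,
    im_ofReal_mul, norm_smul, norm_real, Real.norm_of_nonneg c0.le]
  refine lt_of_eq_of_lt (by ring) (mul_neg_of_pos_of_neg (mul_pos c0 c0) (b := 2 * (f (1, 0) + ε) /
    (f (0, 1) + ε) * (‖M x‖ ^ 2 - γ ^ 2 * ‖x‖ ^ 2) - 2 * ((⟪x, M x⟫_ℂ).re - -f (0, I) /
    (f (0, 1) + ε) * (⟪x, M x⟫_ℂ).im)) (neg_of_mul_neg_left ?_ d.le))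
  have a := f1 _ (mk x _ x1 (sq_nonneg _) le_rfl)
  have b := M.unit_le_opNorm x x1.le
  have b1 := pow_le_pow_left₀ (norm_nonneg _) b 2
  have b2 := (neg_le_abs _).trans ((abs_re_le_norm _).trans (norm_inner_le_norm (𝕜 := ℂ) x (M x)))
  rw [e] at a
  simp only [neg_re, neg_im, x1] at a b2 ⊢
  field_simp
  nlinarith [mul_nonneg ε0.le (sq_nonneg γ)]

theorem hat (h : θ ∈ Icc 0 (π / 2)) (M : E n →L[ℂ] E n) : muHat θ M = A θ M := by
  refine le_antisymm (le_of_forall_gt_imp_ge_of_dense fun γ g => csInf_le ⟨0, fun _ a => a.1.le⟩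
    ⟨(A0 M).trans_lt g, feas h M g⟩) (le_csInf ⟨_, (A0 M).trans_lt (lt_add_one _),
      feas h M (lt_add_one _)⟩ fun γ ⟨g, r, r0, β, b, c⟩ => Real.sSup_le ?_ g.le)
  rintro _ ⟨x, x1, a, rfl⟩
  have d := c x fun e => by simp [e] at x1
  have l := lin h ((sect h).mp a)
  rw [form, x1] at d
  simp only [neg_re, neg_im, abs_neg] at l
  have : -(β * (⟪x, M x⟫_ℂ).im) ≤ -(⟪x, M x⟫_ℂ).re := by
    rcases h.1.eq_or_lt with t | t
    · simp [← t] at l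
      simpa [l.2] using l.1
    have s := Real.sin_pos_of_pos_of_lt_pi t (by linarith [h.2, Real.pi_pos])
    have b := b.resolve_left t.ne'
    rw [Real.cot_eq_cos_div_sin, le_div_iff₀ s] at b
    refine (neg_le_abs _).trans (le_of_mul_le_mul_left ?_ s)
    rw [abs_mul]
    nlinarith [abs_nonneg (⟪x, M x⟫_ℂ).im]
  exact (abs_le_of_sq_le_sq' (by nlinarith) g.le).2

theorem gain (h : θ ∈ Icc 0 (π / 2)) {M G : E n →L[ℂ] E n} (a : InG θ G)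
    (b : ∃ x ≠ 0, x + G (M x) = 0) :
    ∃ x, ‖x‖ = 1 ∧ G (M x) = -x ∧ ‖M x‖ ≤ A θ M ∧ 1 ≤ ‖G‖ * ‖M x‖ := by
  obtain ⟨x, x0, b⟩ := b
  obtain ⟨x, x1, c, c0, rfl⟩ := nz x0
  have e : G (M x) = -x := by
    rw [map_smul, map_smul, ← smul_add, smul_eq_zero_iff_right (ofReal_ne_zero.mpr c0.ne')] at b
    exact eq_neg_of_add_eq_zero_right b
  have := (ing h).mp a (M x)
  rw [e, inner_neg_right, ← inner_conj_symm] at this
  exact ⟨x, x1, e, leA M x1 ((sect h).mpr (by simpa [-inner_conj_symm] using this)),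
    (by simp [e, x1] : 1 = ‖G (M x)‖).trans_le (G.le_opNorm _)⟩

theorem muA (h : θ ∈ Icc 0 (π / 2)) (M : E n →L[ℂ] E n) : mu θ M ≤ A θ M := by
  rw [mu]
  rcases eq_empty_or_nonempty {s | ∃ G : E n →L[ℂ] E n, InG θ G ∧ (∃ x ≠ 0, x + G (M x) = 0) ∧
    s = ‖G‖} with e | e
  · rw [e]
    simpa using A0 M
  have k : ∀ G : E n →L[ℂ] E n, InG θ G → (∃ x ≠ 0, x + G (M x) = 0) → 1 ≤ ‖G‖ * A θ M :=
    fun G a b => (gain h a b).elim fun x c => c.2.2.2.trans (by gcongr; exact c.2.2.1)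
  obtain ⟨_, G, a, b, -⟩ := id e
  have p : 0 < A θ M := (A0 M).lt_of_ne fun c => by linarith [c ▸ k G a b]
  exact (one_div_le_one_div_of_le (one_div_pos.mpr p) (le_csInf e fun _ ⟨G, a, b, c⟩ =>
    c ▸ (div_le_iff₀ p).mpr (k G a b))).trans_eq (one_div_one_div _)

theorem B0 (M : E n →L[ℂ] E n) : 0 ≤ B θ M :=
  Real.sSup_nonneg fun _ ⟨_, _, _, e⟩ => e ▸ norm_nonneg _

theorem Bmu (h : θ ∈ Icc 0 (π / 2)) (M : E n →L[ℂ] E n) : B θ M ≤ mu θ M := by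
  have m : 0 ≤ mu θ M := one_div_nonneg.mpr (Real.sInf_nonneg fun _ ⟨_, _, _, e⟩ =>
    e ▸ norm_nonneg _)
  refine Real.sSup_le ?_ m
  rintro _ ⟨x, x1, a, rfl⟩
  by_cases x0 : M x = 0
  · simpa [x0] using m
  obtain ⟨v, v1, c, c0, e⟩ := nz x0
  have c1 : ‖M x‖ = c := by simp [e, norm_smul, v1, abs_of_pos c0]
  obtain ⟨G, g1, g2, g3⟩ := build h v1 (w := -x) (by simpa using x1) (by
    rw [c1, e, inner_smul_right, re_ofReal_mul, ← inner_conj_symm, conj_re] at a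
    rw [inner_neg_right, neg_re]
    nlinarith)
  have i := inv_pos.mpr c0
  have s : ‖((c⁻¹ : ℝ) : ℂ) • G‖ ∈ {s | ∃ G : E n →L[ℂ] E n, InG θ G ∧
      (∃ x ≠ 0, x + G (M x) = 0) ∧ s = ‖G‖} := ⟨_, (ing h).mpr fun u => by
    simp only [smul_apply, inner_smul_right, re_ofReal_mul, norm_mul, norm_real,
      Real.norm_of_nonneg i.le]
    nlinarith [(ing h).mp g1 u], ⟨x, fun z => by simp [z] at x1, by
      simp [e, g3, smul_smul, c0.ne', -coe_smul]⟩, rfl⟩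
  have p : 0 < ‖M‖ := norm_pos_iff.mpr fun z => x0 (by simp [z])
  rw [c1, mu, le_one_div c0 ((one_div_pos.mpr p).trans_le (le_csInf ⟨_, s⟩ fun _ ⟨G, a, b, d⟩ =>
    (gain h a b).elim fun x f => d ▸ (div_le_iff₀ p).mpr (f.2.2.2.trans (by
      gcongr; exact M.unit_le_opNorm _ f.1.le))))]
  refine (csInf_le ⟨0, by rintro _ ⟨_, _, _, rfl⟩; positivity⟩ s).trans ?_
  rw [norm_smul, norm_real, Real.norm_of_nonneg i.le, one_div]
  exact mul_le_of_le_one_right i.le g2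

theorem leB (M : E n →L[ℂ] E n) {x : E n} (x1 : ‖x‖ = 1)
    (h : Real.cos θ * ‖M x‖ ≤ -(⟪x, M x⟫_ℂ).re) : ‖M x‖ ≤ B θ M :=
  le_csSup ⟨‖M‖, fun _ ⟨_, a, _, e⟩ => e ▸ M.unit_le_opNorm _ a.le⟩ ⟨x, x1, h, rfl⟩

theorem key (h : θ ∈ Icc 0 (π / 2)) (M : E n →L[ℂ] E n) (e : mu θ M = A θ M) :
    A θ M ≤ B θ M := by
  rcases (A0 (θ := θ) M).eq_or_lt with p | p
  · exact p ▸ B0 M
  let S := {G : E n →L[ℂ] E n | InG θ G ∧ ∃ x ≠ 0, x + G (M x) = 0}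
  have c : IsClosed S := by
    have : CompactSpace (sphere (0 : E n) 1) := isCompact_iff_compactSpace.mp (isCompact_sphere _ _)
    convert isClosedMap_fst_of_compactSpace {p : (E n →L[ℂ] E n) × sphere (0 : E n) 1 |
      (∀ x, Real.cos θ * ‖⟪x, p.1 x⟫_ℂ‖ ≤ (⟪x, p.1 x⟫_ℂ).re) ∧ p.1 (M p.2) = -p.2}
      (.and (ofPred_forall _ ▸ isClosed_iInter fun x => isClosed_le (by fun_prop) (by fun_prop))
        (isClosed_eq (by fun_prop) (by fun_prop)))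
    ext G
    refine ⟨fun ⟨a, b⟩ => (gain h a b).elim fun x f => ⟨(G, ⟨x, by simp [f.1]⟩),
      ⟨(ing h).mp a, f.2.1⟩, rfl⟩, ?_⟩
    rintro ⟨⟨G, x, x1⟩, ⟨a, b⟩, rfl⟩
    exact ⟨(ing h).mpr a, x, fun z => by simp [z] at x1, by simp at b; simp [b]⟩
  have : ProperSpace (E n →L[ℂ] E n) := FiniteDimensional.proper ℂ _
  rcases S.eq_empty_or_nonempty with s | s
  · have : {s | ∃ G : E n →L[ℂ] E n, InG θ G ∧ (∃ x ≠ 0, x + G (M x) = 0) ∧ s = ‖G‖} = ∅ :=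
      eq_empty_of_forall_notMem fun _ ⟨G, a, b, _⟩ => s.subset (⟨a, b⟩ : G ∈ S)
    rw [mu, this] at e
    simpa [← e] using B0 M
  obtain ⟨G, ⟨a, b⟩, d⟩ := c.exists_infDist_eq_dist s 0
  have : IsLeast {s | ∃ G : E n →L[ℂ] E n, InG θ G ∧ (∃ x ≠ 0, x + G (M x) = 0) ∧ s = ‖G‖} ‖G‖ :=
    ⟨⟨G, a, b, rfl⟩, fun _ ⟨F, a, b, e⟩ => by
      simpa [d, e] using infDist_le_dist_of_mem (x := 0) (show F ∈ S from ⟨a, b⟩)⟩
  rw [mu, this.csInf_eq] at e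
  obtain ⟨x, x1, f1, f2, f3⟩ := gain h a b
  have g : 0 < ‖G‖ := one_div_pos.mp (e ▸ p)
  have q : ‖M x‖ = A θ M := f2.antisymm (e ▸ (div_le_iff₀' g).mpr f3)
  obtain ⟨v, v1, c, c0, k⟩ := nz (x := M x) fun z => by simp [z] at f3; linarith
  have c1 : ‖M x‖ = c := by simp [k, norm_smul, v1, abs_of_pos c0]
  have y : ((c : ℂ) • G) v = -x := by rw [← f1, k, map_smul, smul_apply]
  have := attain h (G := (c : ℂ) • G) ((ing h).mpr fun u => by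
    simp only [smul_apply, inner_smul_right, re_ofReal_mul, norm_mul, norm_real,
      Real.norm_of_nonneg c0.le]
    nlinarith [(ing h).mp a u]) (by
      rw [norm_smul, norm_real, Real.norm_of_nonneg c0.le, ← c1, q, ← e, one_div,
        inv_mul_cancel₀ g.ne']) v1 (by simp [y, x1])
  refine q ▸ leB M x1 ?_
  rw [y, inner_neg_right, neg_re] at this
  rw [c1, k, inner_smul_right, re_ofReal_mul, ← inner_conj_symm, conj_re]
  nlinarith

/-- The characterisation of exactness for the operator `M`. -/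
def Char (M : V →L[ℂ] V) : Prop :=
  (∀ θ ∈ Icc 0 (π / 2), muHat θ M = A θ M ∧ B θ M ≤ mu θ M ∧ mu θ M ≤ A θ M ∧
    (mu θ M = muHat θ M ↔ A θ M = B θ M)) ∧ mu (π / 2) M = muHat (π / 2) M

theorem result : (∀ (n : ℕ) (M : E n →L[ℂ] E n), Char M) ∧
    ∀ θ ∈ Ico 0 (π / 2), ∃ M : E 2 →L[ℂ] E 2, mu θ M < muHat θ M := by
  have k : ∀ (n : ℕ) (M : E n →L[ℂ] E n), ∀ θ ∈ Icc 0 (π / 2),
      (mu θ M = muHat θ M ↔ A θ M = B θ M) := fun n M θ h => (hat h M).symm ▸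
    ⟨fun e => (key h M e).antisymm ((Bmu h M).trans (muA h M)),
      fun e => (muA h M).antisymm (e ▸ Bmu h M)⟩
  have p : π / 2 ∈ Icc 0 (π / 2) := ⟨by positivity, le_rfl⟩
  refine ⟨fun n M => ⟨fun θ h => ⟨hat h M, Bmu h M, muA h M, k n M θ h⟩, (k n M _ p).mpr ?_⟩,
    fun θ h => ?_⟩
  · simp [A, B, sect p]
  have h' := Ico_subset_Icc_self h
  let e := EuclideanSpace.single (𝕜 := ℂ) (ι := Fin 2) 0 1
  let M : E 2 →L[ℂ] E 2 := (EuclideanSpace.proj 1).smulRight e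
  have c := Real.cos_pos_of_mem_Ioo ⟨by linarith [h.1, Real.pi_pos], h.2⟩
  have b : B θ M ≤ √(1 - Real.cos θ ^ 2) := Real.sSup_le (by
    rintro _ ⟨x, x1, a, rfl⟩
    have x2 := EuclideanSpace.norm_sq_eq x
    have a := a.trans ((neg_le_abs _).trans (abs_re_le_norm ⟪x, M x⟫_ℂ))
    simp [M, e, x1, norm_smul, EuclideanSpace.inner_single_right] at a x2 ⊢
    refine Real.le_sqrt_of_sq_le ?_
    by_cases z : x 1 = 0
    · simpa [z] using Real.cos_sq_le_one θ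
    have := le_of_mul_le_mul_right (a.trans_eq (mul_comm _ _)) (norm_pos_iff.mpr z)
    nlinarith) (Real.sqrt_nonneg _)
  have a := leA (θ := θ) M (x := .single 1 1) (by simp) (.inl (by simp [M, e, EuclideanSpace.inner_single_right]))
  refine ⟨M, ((muA h' M).trans_eq (hat h' M).symm).lt_of_ne fun z => ?_⟩
  rw [(k 2 M θ h').mp z] at a
  simp [M, e] at a
  exact ((Real.sqrt_lt' one_pos).mpr (by nlinarith)).not_ge (a.trans b)

end Pool.Agent.Results.MP_0eb722_an.Exact
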